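import Mathlib

set_option autoImplicit false

namespace Pool.Agent.H.MP_a65cb7_co

open Filter Topology

abbrev E := EuclideanSpace ℝ (Fin 2)

abbrev W (m : ℕ) := Bool × Fin m × Bool

variable {m : ℕ}

def G (m : ℕ) : SimpleGraph (W m) where
  Adj x y := (x.1 ≠ y.1 ∧ x.2.2 = y.2.2) ∨ (x.1 = y.1 ∧ x.2.1 = y.2.1 ∧ x.2.2 ≠ y.2.2)
  symm := ⟨fun x y h => by tauto⟩
  loopless := ⟨fun x h => by tauto⟩

noncomputable def a (i : Fin m) : ℝ := 2 * (i : ℕ) + 2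

noncomputable def bx (t : ℝ) (x : W m) : ℝ := if x.1 then √(a x.2.1 ^ 2 + t) else 0

noncomputable def by' (t : ℝ) (x : W m) : ℝ := if x.1 then 0 else √(a x.2.1 ^ 2 - t)

noncomputable def ux (s : ℝ) (x : W m) : ℝ := if x.2.2 then (1 - s ^ 2) / (1 + s ^ 2) else 0

noncomputable def uy (s : ℝ) (x : W m) : ℝ := if x.2.2 then 2 * s / (1 + s ^ 2) else 0

noncomputable def q (t s : ℝ) (x : W m) : E := !₂[bx t x + ux s x, by' t x + uy s x]

lemma a_ge (i : Fin m) : 2 ≤ a i := by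
  unfold a; have : (0 : ℝ) ≤ (i : ℕ) := Nat.cast_nonneg _; linarith

lemma a_inj {i j : Fin m} (h : a i = a j) : i = j := by
  unfold a at h
  have : ((i : ℕ) : ℝ) = (j : ℕ) := by linarith
  exact Fin.ext (by exact_mod_cast this)

lemma sqrt0 (i : Fin m) : √(a i ^ 2) = a i := Real.sqrt_sq (by have := a_ge i; linarith)

lemma dist_iff (t s t' s' : ℝ) (x y : W m) :
    dist (q t s x) (q t s y) = dist (q t' s' x) (q t' s' y) ↔
      (bx t x + ux s x - (bx t y + ux s y)) ^ 2 + (by' t x + uy s x - (by' t y + uy s y)) ^ 2 =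
      (bx t' x + ux s' x - (bx t' y + ux s' y)) ^ 2 +
        (by' t' x + uy s' x - (by' t' y + uy s' y)) ^ 2 := by
  rw [EuclideanSpace.dist_eq, EuclideanSpace.dist_eq, Real.sqrt_inj (by positivity) (by positivity)]
  simp [q, Fin.sum_univ_two, Real.dist_eq, sq_abs]

lemma edge (t s : ℝ) (ht : |t| ≤ 1) (x y : W m) (h : (G m).Adj x y) :
    dist (q t s x) (q t s y) = dist (q 0 0 x) (q 0 0 y) := by
  rw [dist_iff]
  obtain ⟨c, i, e⟩ := x
  obtain ⟨d, j, f⟩ := y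
  have h1 := a_ge i
  have h2 := a_ge j
  obtain ⟨t1, t2⟩ := abs_le.1 ht
  have k1 : √(a i ^ 2 + t) ^ 2 = a i ^ 2 + t := Real.sq_sqrt (by nlinarith)
  have k2 : √(a i ^ 2 - t) ^ 2 = a i ^ 2 - t := Real.sq_sqrt (by nlinarith)
  have k3 : √(a j ^ 2 + t) ^ 2 = a j ^ 2 + t := Real.sq_sqrt (by nlinarith)
  have k4 : √(a j ^ 2 - t) ^ 2 = a j ^ 2 - t := Real.sq_sqrt (by nlinarith)
  have hs : (1 + s ^ 2) ≠ 0 := by positivity
  have hu : ((1 - s ^ 2) / (1 + s ^ 2)) ^ 2 + (2 * s / (1 + s ^ 2)) ^ 2 = 1 := by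
    field_simp; ring
  rcases h with ⟨h, h'⟩ | ⟨h, h', h''⟩
  · simp only at h h'
    subst h'
    cases c <;> cases d <;> cases e <;> simp [bx, by', ux, uy, sqrt0] at h ⊢ <;> linarith
  · simp only at h h' h''
    subst h h'
    cases c <;> cases e <;> cases f <;> simp [bx, by', ux, uy, sqrt0] at h'' ⊢ <;> linarith

lemma sq_ne {α β t : ℝ} (h1 : 2 ≤ α) (h2 : 2 ≤ β) (hne : α ≠ β) (ht : |t| ≤ 1) (h0 : t ≠ 0) :
    (√(α ^ 2 + t) - √(β ^ 2 + t)) ^ 2 ≠ (α - β) ^ 2 := by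
  obtain ⟨t1, t2⟩ := abs_le.1 ht
  have k1 : √(α ^ 2 + t) ^ 2 = α ^ 2 + t := Real.sq_sqrt (by nlinarith)
  have k3 : √(β ^ 2 + t) ^ 2 = β ^ 2 + t := Real.sq_sqrt (by nlinarith)
  intro h
  have h3 : √(α ^ 2 + t) * √(β ^ 2 + t) = α * β + t := by nlinarith
  have h4 : (α ^ 2 + t) * (β ^ 2 + t) = (α * β + t) ^ 2 := by
    rw [← h3, mul_pow, k1, k3]
  have h5 : t * (α - β) ^ 2 = 0 := by linear_combination h4
  rcases mul_eq_zero.1 h5 with h | h
  · exact h0 h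
  · exact hne (by have := pow_eq_zero_iff (two_ne_zero) |>.1 h; linarith)

lemma flex1 (t : ℝ) (ht : |t| ≤ 1) (h0 : t ≠ 0) (x y : W m) (h1 : x.1 = y.1) (h2 : x.2.2 = y.2.2)
    (hne : x ≠ y) : dist (q t 0 x) (q t 0 y) ≠ dist (q 0 0 x) (q 0 0 y) := by
  rw [Ne, dist_iff]
  obtain ⟨c, i, e⟩ := x
  obtain ⟨d, j, f⟩ := y
  simp only at h1 h2
  subst h1 h2
  have hij : a i ≠ a j := fun h => hne (by rw [a_inj h])
  have k1 := sq_ne (a_ge i) (a_ge j) hij ht h0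
  have k2 := sq_ne (t := -t) (a_ge i) (a_ge j) hij (by rwa [abs_neg]) (neg_ne_zero.2 h0)
  simp only [← sub_eq_add_neg] at k2
  cases c <;> cases e <;> simpa [bx, by', ux, uy, sqrt0] using ‹_›

lemma flex2 (x y : W m) (h1 : x.2.2 = false) (h2 : y.2.2 = true)
    (hne : (x.1, x.2.1) ≠ (y.1, y.2.1)) :
    ∀ᶠ s in 𝓝[≠] (0 : ℝ), dist (q 0 s x) (q 0 s y) ≠ dist (q 0 0 x) (q 0 0 y) := by
  set d1 := bx 0 x - bx 0 y with hd1
  set d2 := by' 0 x - by' 0 y with hd2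
  have hd : d1 ≠ 0 ∨ d2 ≠ 0 := by
    obtain ⟨c, i, e⟩ := x
    obtain ⟨d, j, f⟩ := y
    have k1 := a_ge i
    have k2 := a_ge j
    have hij : i ≠ j → a i - a j ≠ 0 := fun h h' => h (a_inj (by linarith))
    cases c <;> cases d <;> simp [hd1, hd2, bx, by', sqrt0] at hne ⊢
    · exact hij hne
    · left; linarith
    · left; linarith
    · exact hij hne
  have hev : ∀ᶠ s in 𝓝[≠] (0 : ℝ), d2 - s * d1 ≠ 0 := by
    by_cases h : d2 = 0
    · filter_upwards [self_mem_nhdsWithin] with s hs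
      have : d1 ≠ 0 := by tauto
      rw [h, zero_sub, neg_ne_zero]
      exact mul_ne_zero hs this
    · apply Filter.Eventually.filter_mono nhdsWithin_le_nhds
      have hc : ContinuousAt (fun s : ℝ => d2 - s * d1) 0 := by fun_prop
      exact hc.eventually_ne (by simpa using h)
  filter_upwards [hev, self_mem_nhdsWithin] with s hs hs0
  rw [Ne, dist_iff]
  intro h
  simp only [ux, uy, h1, h2] at h
  have hs1 : (1 + s ^ 2) ≠ 0 := by positivity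
  have e1 : ∀ u : ℝ, bx 0 x + 0 - (bx 0 y + u) = d1 - u := fun u => by rw [hd1]; ring
  have e2 : ∀ u : ℝ, by' 0 x + 0 - (by' 0 y + u) = d2 - u := fun u => by rw [hd2]; ring
  simp only [Bool.false_eq_true, if_false, if_true, e1, e2] at h
  have : s * (d2 - s * d1) = 0 := by
    field_simp at h
    have h3 : (1 + s ^ 2) * (s * (d2 - s * d1)) = 0 := by linear_combination (-1 / 4 : ℝ) * h
    exact (mul_eq_zero.1 h3).resolve_left hs1
  exact (mul_ne_zero hs0 hs) this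

lemma cont1 (x : W m) : Continuous fun t : ℝ => q t 0 x := by
  unfold q bx by'
  refine (PiLp.continuous_toLp 2 _).comp (continuous_pi fun i => ?_)
  fin_cases i <;> simp <;> split_ifs <;> fun_prop

lemma cont2 (x : W m) : Continuous fun s : ℝ => q 0 s x := by
  unfold q ux uy
  refine (PiLp.continuous_toLp 2 _).comp (continuous_pi fun i => ?_)
  have : ∀ s : ℝ, 1 + s ^ 2 ≠ 0 := fun s => by positivity
  fin_cases i <;> simp <;> split_ifs <;> fun_prop (disch := assumption)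

lemma q_inj : Function.Injective (q 0 0 : W m → E) := by
  rintro ⟨c, i, e⟩ ⟨d, j, f⟩ h
  have h0 := congrArg (fun z : E => z 0) h
  have h1 := congrArg (fun z : E => z 1) h
  have k1 := a_ge i
  have k2 := a_ge j
  have k3 : a i ≠ a j + 1 := by
    unfold a
    intro h
    have : (2 * (i : ℕ) + 2 : ℕ) = 2 * (j : ℕ) + 2 + 1 := by exact_mod_cast h
    omega
  have k4 : a i + 1 ≠ a j := by
    unfold a
    intro h
    have : (2 * (i : ℕ) + 2 + 1 : ℕ) = 2 * (j : ℕ) + 2 := by exact_mod_cast h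
    omega
  cases c <;> cases d <;> cases e <;> cases f <;>
    simp [q, bx, by', ux, uy, sqrt0] at h0 h1 ⊢ <;>
    first | exact a_inj h1 | exact a_inj h0 | linarith | exact k3 h0 | exact k4 h0

lemma ncol (p1 p2 p3 : E)
    (h : (p2 0 - p1 0) * (p3 1 - p1 1) ≠ (p3 0 - p1 0) * (p2 1 - p1 1)) :
    ¬ Collinear ℝ ({p1, p2, p3} : Set E) := by
  intro hc
  obtain ⟨v, hv⟩ := (collinear_iff_of_mem (p₀ := p1) (by simp)).1 hc
  obtain ⟨r, hr⟩ := hv p2 (by simp)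
  obtain ⟨r', hr'⟩ := hv p3 (by simp)
  apply h
  rw [hr, hr']
  simp
  ring

lemma noncol (hm : 2 ≤ m) (x : W m) : ¬ Collinear ℝ (q 0 0 '' (G m).neighborSet x) := by
  obtain ⟨c, i, e⟩ := x
  intro hc
  have hsub : ({q 0 0 ((!c, ⟨0, by omega⟩, e) : W m), q 0 0 ((!c, ⟨1, by omega⟩, e) : W m),
      q 0 0 ((c, i, !e) : W m)} : Set E) ⊆ q 0 0 '' (G m).neighborSet (c, i, e) := by
    intro z hz
    simp only [Set.mem_insert_iff, Set.mem_singleton_iff] at hz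
    rcases hz with rfl | rfl | rfl <;> refine ⟨_, ?_, rfl⟩ <;> simp [G]
  refine ncol _ _ _ ?_ (hc.subset hsub)
  have k1 := a_ge i
  have a0 : a (⟨0, by omega⟩ : Fin m) = 2 := by simp [a]
  have a1 : a (⟨1, by omega⟩ : Fin m) = 4 := by simp [a]; norm_num
  cases c <;> cases e <;> simp [q, bx, by', ux, uy, sqrt0, a0, a1] <;>
    (constructor <;> intro h <;> linarith)

lemma three (S : Set (W m)) (h : 3 ≤ S.ncard) :
    (∃ x ∈ S, ∃ y ∈ S, x.1 = y.1 ∧ x.2.2 = y.2.2 ∧ x ≠ y) ∨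
    (∃ x ∈ S, ∃ y ∈ S, x.2.2 = false ∧ y.2.2 = true ∧ (x.1, x.2.1) ≠ (y.1, y.2.1)) := by
  obtain ⟨x, hx, y, hy, z, hz, h1, h2, h3⟩ := (Set.two_lt_ncard (Set.toFinite S)).1 h
  by_contra hc
  push Not at hc
  obtain ⟨c1, c2⟩ := hc
  have R : ∀ u ∈ S, ∀ v ∈ S, u ≠ v →
      (u.2.2 = v.2.2 → u.1 ≠ v.1) ∧ (u.2.2 ≠ v.2.2 → u.1 = v.1) := by
    intro u hu v hv huv
    refine ⟨fun e1 e2 => huv (c1 u hu v hv e2 e1), fun e1 => ?_⟩
    cases hu2 : u.2.2 <;> cases hv2 : v.2.2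
    · exact absurd (hu2.trans hv2.symm) e1
    · exact (Prod.ext_iff.1 (c2 u hu v hv hu2 hv2)).1
    · exact (Prod.ext_iff.1 (c2 v hv u hu hv2 hu2)).1.symm
    · exact absurd (hu2.trans hv2.symm) e1
  have key : ∀ a1 a2 a3 e1 e2 e3 : Bool, ((e1 = e2 → a1 ≠ a2) ∧ (e1 ≠ e2 → a1 = a2)) →
      ((e1 = e3 → a1 ≠ a3) ∧ (e1 ≠ e3 → a1 = a3)) →
      ((e2 = e3 → a2 ≠ a3) ∧ (e2 ≠ e3 → a2 = a3)) → False := by decide
  exact key _ _ _ _ _ _ (R x hx y hy h1) (R x hx z hz h2) (R y hy z hz h3)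

lemma flex (S : Set (W m)) (h : 3 ≤ S.ncard) :
    ∃ γ : ℝ → W m → E, (∀ x, Continuous fun t => γ t x) ∧ γ 0 = q 0 0 ∧
      ∃ x ∈ S, ∃ y ∈ S, ∀ᶠ t in 𝓝[≠] (0 : ℝ), (∀ u v, (G m).Adj u v →
        dist (γ t u) (γ t v) = dist (q 0 0 u) (q 0 0 v)) ∧
        dist (γ t x) (γ t y) ≠ dist (q 0 0 x) (q 0 0 y) := by
  rcases three S h with ⟨x, hx, y, hy, h1, h2, h3⟩ | ⟨x, hx, y, hy, h1, h2, h3⟩
  · refine ⟨fun t => q t 0, cont1, rfl, x, hx, y, hy, ?_⟩
    have : ∀ᶠ t in 𝓝[≠] (0 : ℝ), |t| ≤ 1 := by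
      apply Filter.Eventually.filter_mono nhdsWithin_le_nhds
      filter_upwards [Icc_mem_nhds (show (-1 : ℝ) < 0 by norm_num) (show (0 : ℝ) < 1 by norm_num)]
        with t ht using abs_le.2 ht
    filter_upwards [this, self_mem_nhdsWithin] with t ht h0
    exact ⟨fun u v huv => edge t 0 ht u v huv, flex1 t ht h0 x y h1 h2 h3⟩
  · refine ⟨fun s => q 0 s, cont2, rfl, x, hx, y, hy, ?_⟩
    filter_upwards [flex2 x y h1 h2 h3] with s hs
    exact ⟨fun u v huv => edge 0 s (by simp) u v huv, hs⟩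

lemma deg (x : W m) : m ≤ ((G m).neighborSet x).ncard := by
  obtain ⟨c, i, e⟩ := x
  have : (Set.range fun j : Fin m => ((!c, j, e) : W m)) ⊆ (G m).neighborSet (c, i, e) := by
    rintro _ ⟨j, rfl⟩
    simp [G]
  have h2 := Set.ncard_le_ncard this (Set.toFinite _)
  rwa [Set.ncard_range_of_injective (fun j k h => by simpa using h), Nat.card_eq_fintype_card,
    Fintype.card_fin] at h2

end Pool.Agent.H.MP_a65cb7_co
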